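import Pool.Agent.J6H36.RF.Stm

/-!
# Module RF-CLP of helper36's project RF: infinitely many points of the affine line with a given residue field
-/

set_option autoImplicit false

universe u

namespace Pool.Agent.J6H85.RFClp

open Polynomial Pool.Agent.J6H36.RF Pool.Agent.J6H36.BSV

theorem t_CLP : S_CLP.{u} := by
  intro F L _ _ _ _ _ _
  obtain ⟨a, ha⟩ := Field.exists_primitive_element F L
  let b : F → L := fun c => a + algebraMap F L c
  have hb : ∀ c, IntermediateField.adjoin F {b c} = ⊤ := by
    intro c
    rw [eq_top_iff, ← ha, IntermediateField.adjoin_le_iff]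
    rintro x (rfl : x = a)
    have h1 : b c ∈ IntermediateField.adjoin F {b c} := IntermediateField.mem_adjoin_simple_self F _
    have h2 : algebraMap F L c ∈ IntermediateField.adjoin F {b c} :=
      (IntermediateField.adjoin F {b c}).algebraMap_mem c
    have h3 := sub_mem h1 h2
    simpa [b] using h3
  have hinj : Function.Injective b := by
    intro c c' h
    exact (algebraMap F L).injective (add_left_cancel h)
  have hne : ∀ c, minpoly F (b c) ≠ 0 := fun c => minpoly.ne_zero (Algebra.IsIntegral.isIntegral _)
  have hinf : (Set.range fun c => minpoly F (b c)).Infinite := by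
    intro hfin
    have h1 : Set.range b ⊆ ⋃ p ∈ Set.range (fun c => minpoly F (b c)), {x : L | x ∈ p.aroots L} := by
      rintro _ ⟨c, rfl⟩
      simp only [Set.mem_iUnion]
      refine ⟨minpoly F (b c), ⟨c, rfl⟩, ?_⟩
      rw [Set.mem_ofPred_eq, mem_aroots]
      exact ⟨hne c, minpoly.aeval F _⟩
    have h2 : (⋃ p ∈ Set.range (fun c => minpoly F (b c)), {x : L | x ∈ p.aroots L}).Finite := by
      refine hfin.biUnion fun p _ => ?_
      classical
      refine (p.aroots L).toFinset.finite_toSet.subset ?_
      intro x hx
      simpa using hx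
    exact (Set.infinite_range_of_injective hinj) (h2.subset h1)
  let f := hinf.natEmbedding
  refine ⟨fun k => (f k : F[X]), fun k k' h => f.injective (Subtype.ext h), fun k => ?_⟩
  obtain ⟨c, hc⟩ := (f k).2
  have hc' : minpoly F (b c) = (f k : F[X]) := hc
  show ((f k : F[X])).Monic ∧ Irreducible (f k : F[X]) ∧ Nonempty (L ≃+* (F[X] ⧸ Ideal.span {(f k : F[X])}))
  rw [← hc']
  have hint : IsIntegral F (b c) := Algebra.IsIntegral.isIntegral _
  refine ⟨minpoly.monic hint, minpoly.irreducible hint, ?_⟩
  have e1 : AdjoinRoot (minpoly F (b c)) ≃ₐ[F] IntermediateField.adjoin F {b c} :=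
    IntermediateField.adjoinRootEquivAdjoin F hint
  have e2 : (IntermediateField.adjoin F {b c} : IntermediateField F L) ≃ₐ[F] L :=
    (IntermediateField.equivOfEq (hb c)).trans IntermediateField.topEquiv
  have e3 : AdjoinRoot (minpoly F (b c)) ≃+* L := (e1.trans e2).toRingEquiv
  exact ⟨e3.symm⟩

end Pool.Agent.J6H85.RFClp
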