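import Pool.Agent.J6H36.RF.Stm

/-!
# Module RF-UP of helper36's project RF: adding one variable to a rational function field
-/

set_option autoImplicit false

universe u

namespace Pool.Agent.J6H85.RFUp

open Polynomial Pool.Agent.J6H36.RF Pool.Agent.J6H36.BSV

theorem t_UP : S_UP.{u} := by
  intro P _ F _ _ d ⟨t, ht, hgen⟩
  have h1 : AlgebraicIndependent F (fun _ : Unit => (RatFunc.X : RatFunc F)) := by
    rw [algebraicIndependent_unique_type_iff]
    exact RatFunc.transcendental_X
  have h2 : AlgebraicIndependent P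
      (Sum.elim (fun _ : Unit => (RatFunc.X : RatFunc F)) (algebraMap F (RatFunc F) ∘ t)) :=
    ht.sumElim_comp h1
  let e : Fin (d + 1) ≃ Unit ⊕ Fin d :=
    (finSuccEquiv d).trans ((Equiv.optionEquivSumPUnit.{0} (Fin d)).trans (Equiv.sumComm _ _))
  refine ⟨Sum.elim (fun _ : Unit => (RatFunc.X : RatFunc F)) (algebraMap F (RatFunc F) ∘ t) ∘ e,
    h2.comp e e.injective, ?_⟩
  rw [Set.range_comp, e.surjective.range_eq, Set.image_univ, Set.Sum.elim_range]
  set M : IntermediateField P (RatFunc F) := IntermediateField.adjoin P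
    (Set.range (fun _ : Unit => (RatFunc.X : RatFunc F)) ∪
      Set.range (algebraMap F (RatFunc F) ∘ t)) with hM
  have hX : (RatFunc.X : RatFunc F) ∈ M :=
    IntermediateField.subset_adjoin P _ (Or.inl ⟨(), rfl⟩)
  have hC : ∀ a : F, algebraMap F (RatFunc F) a ∈ M := by
    intro a
    have ha : a ∈ IntermediateField.adjoin P (Set.range t) := by
      rw [hgen]; exact IntermediateField.mem_top
    have h3 : IsScalarTower.toAlgHom P F (RatFunc F) a ∈
        (IntermediateField.adjoin P (Set.range t)).map (IsScalarTower.toAlgHom P F (RatFunc F)) :=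
      ⟨a, ha, rfl⟩
    rw [IntermediateField.adjoin_map] at h3
    have h4 : IntermediateField.adjoin P
        (IsScalarTower.toAlgHom P F (RatFunc F) '' Set.range t) ≤ M := by
      apply IntermediateField.adjoin.mono
      rintro _ ⟨_, ⟨i, rfl⟩, rfl⟩
      exact Or.inr ⟨i, rfl⟩
    exact h4 h3
  have hp : ∀ p : F[X], algebraMap F[X] (RatFunc F) p ∈ M := by
    intro p
    induction p using Polynomial.induction_on' with
    | add p q hp hq => rw [map_add]; exact M.add_mem hp hq
    | monomial n a =>
      rw [← Polynomial.C_mul_X_pow_eq_monomial, map_mul, map_pow, RatFunc.algebraMap_X,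
        RatFunc.algebraMap_C]
      exact M.mul_mem (hC a) (pow_mem hX n)
  rw [eq_top_iff]
  intro g _
  rw [← RatFunc.num_div_denom g]
  exact M.div_mem (hp _) (hp _)

end Pool.Agent.J6H85.RFUp
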